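import Pool.Agent.W890.SF.Stm

/-!
# SAM-BDD: small matchings, degree version
-/

set_option autoImplicit false

namespace Pool.Agent.W63.SAM.BDD

open Finset Pool.Agent.W890.SF

theorem choose_up (a m d : ℕ) :
    a.choose (m + 1) + d * a.choose m ≤ (a + d).choose (m + 1) := by
  induction d with
  | zero => simp
  | succ d ih =>
    have h1 : (a + (d + 1)).choose (m + 1) = (a + d).choose m + (a + d).choose (m + 1) := by
      rw [← Nat.add_assoc]; exact Nat.choose_succ_succ _ _
    have h2 : a.choose m ≤ (a + d).choose m := Nat.choose_le_choose m (by omega)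
    rw [h1, Nat.succ_mul]
    omega

theorem choose_dn (a m d : ℕ) :
    (a + d).choose (m + 1) ≤ a.choose (m + 1) + d * (a + d).choose m := by
  induction d with
  | zero => simp
  | succ d ih =>
    have h1 : (a + (d + 1)).choose (m + 1) = (a + d).choose m + (a + d).choose (m + 1) := by
      rw [← Nat.add_assoc]; exact Nat.choose_succ_succ _ _
    have h2 : (a + d).choose m ≤ (a + (d + 1)).choose m := Nat.choose_le_choose m (by omega)
    have h3 : d * (a + d).choose m ≤ d * (a + (d + 1)).choose m := Nat.mul_le_mul_left d h2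
    rw [h1, Nat.succ_mul]
    omega

theorem choose_half (a m d : ℕ) (h : 2 * d * m ≤ a + d - m) (h2 : m < a + d) :
    (a + d).choose m ≤ 2 * a.choose m := by
  rcases m with _ | m
  · simp
  · have h1 := choose_dn a m d
    have h3 := Nat.choose_succ_right_eq (a + d) m
    set b := a + d with hb
    have h4 : 0 < b - m := by omega
    have h5 : 2 * d * (m + 1) ≤ b - m := by omega
    -- multiply by (b - m)
    have h6 : 2 * (d * b.choose m) * (b - m) ≤ b.choose (m + 1) * (b - m) := by
      calc 2 * (d * b.choose m) * (b - m) = 2 * d * (b.choose m * (b - m)) := by ring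
        _ = 2 * d * (b.choose (m + 1) * (m + 1)) := by rw [h3]
        _ = b.choose (m + 1) * (2 * d * (m + 1)) := by ring
        _ ≤ b.choose (m + 1) * (b - m) := Nat.mul_le_mul_left _ h5
    have h7 : 2 * (d * b.choose m) ≤ b.choose (m + 1) := Nat.le_of_mul_le_mul_right h6 h4
    omega

variable {α : Type} [DecidableEq α]

theorem pair_le {k : ℕ} {U : Finset α} {F : Finset (Finset α)}
    (hF : ∀ e ∈ F, e ⊆ U ∧ e.card = k) {v w : α} (hvw : v ≠ w) (hv : v ∈ U) (hw : w ∈ U) :
    (F.filter (fun e => v ∈ e ∧ w ∈ e)).card ≤ (U.card - 2).choose (k - 2) := by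
  have h1 : (((U.erase v).erase w).powersetCard (k - 2)).card = (U.card - 2).choose (k - 2) := by
    rw [card_powersetCard, card_erase_of_mem (mem_erase.2 ⟨hvw.symm, hw⟩), card_erase_of_mem hv]
    congr 1
  rw [← h1]
  apply Finset.card_le_card_of_injOn (fun e => (e.erase v).erase w)
  · intro e he
    rw [mem_coe, mem_filter] at he
    obtain ⟨he, h2, h3⟩ := he
    rw [mem_coe, mem_powersetCard]
    refine ⟨erase_subset_erase _ (erase_subset_erase _ (hF e he).1), ?_⟩
    rw [card_erase_of_mem (mem_erase.2 ⟨hvw.symm, h3⟩), card_erase_of_mem h2, (hF e he).2]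
    omega
  · intro e he e' he' hee
    rw [mem_coe, mem_filter] at he he'
    have hr : ∀ f : Finset α, v ∈ f → w ∈ f → insert v (insert w ((f.erase v).erase w)) = f := by
      intro f hf1 hf2
      rw [insert_erase (mem_erase.2 ⟨hvw.symm, hf2⟩), insert_erase hf1]
    simp only at hee
    rw [← hr e he.2.1 he.2.2, ← hr e' he'.2.1 he'.2.2, hee]

theorem sum_dg {k : ℕ} {U : Finset α} {F : Finset (Finset α)}
    (hF : ∀ e ∈ F, e ⊆ U ∧ e.card = k) : ∑ v ∈ U, dg F v = k * F.card := by
  have h1 : ∀ v, dg F v = ∑ e ∈ F, if v ∈ e then 1 else 0 := by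
    intro v
    rw [dg, card_filter]
  simp only [h1]
  rw [sum_comm]
  have h2 : ∀ e ∈ F, ∑ v ∈ U, (if v ∈ e then 1 else 0) = k := by
    intro e he
    rw [← card_filter]
    have : U.filter (fun v => v ∈ e) = e := by
      ext v
      rw [mem_filter]
      exact ⟨fun h => h.2, fun h => ⟨(hF e he).1 h, h⟩⟩
    rw [this, (hF e he).2]
  rw [sum_congr rfl h2, sum_const, smul_eq_mul, mul_comm]

theorem mtch_sub {M M' : Finset (Finset α)} (h : M' ⊆ M) (hM : Mtch M) : Mtch M' :=
  fun e he e' he' hne => hM e (h he) e' (h he') hne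

theorem card_V {k : ℕ} {U : Finset α} {F M : Finset (Finset α)}
    (hF : ∀ e ∈ F, e ⊆ U ∧ e.card = k) (hM : M ⊆ F) : (M.biUnion id).card ≤ M.card * k := by
  refine card_biUnion_le.trans (le_of_eq ?_)
  calc ∑ e ∈ M, (id e).card = ∑ e ∈ M, k := sum_congr rfl (fun e he => (hF e (hM he)).2)
    _ = M.card * k := by rw [sum_const, smul_eq_mul]

theorem caseA {k : ℕ} (hk : 2 ≤ k) {U : Finset α} {F M : Finset (Finset α)}
    (hF : ∀ e ∈ F, e ⊆ U ∧ e.card = k) {v : α} (hv : v ∈ U) {s : ℕ} (hMF : M ⊆ F)
    (hM : Mtch M) (hMc : M.card = s) (hMv : ∀ e ∈ M, v ∉ e)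
    (hdv : s * k * (U.card - 2).choose (k - 2) < dg F v) : HasM F (s + 1) := by
  have hVv : v ∉ M.biUnion id := by
    intro h
    rw [mem_biUnion] at h
    obtain ⟨e, he, h⟩ := h
    exact hMv e he h
  have hVU : M.biUnion id ⊆ U := by
    intro x hx
    rw [mem_biUnion] at hx
    obtain ⟨e, he, h⟩ := hx
    exact (hF e (hMF he)).1 h
  -- an edge at v disjoint from V(M)
  obtain ⟨e, he, hve, hdis⟩ : ∃ e ∈ F, v ∈ e ∧ Disjoint e (M.biUnion id) := by
    by_contra hcon
    push Not at hcon
    have hsub : F.filter (fun e => v ∈ e) ⊆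
        (M.biUnion id).biUnion (fun x => F.filter (fun e => v ∈ e ∧ x ∈ e)) := by
      intro e he
      rw [mem_filter] at he
      have := hcon e he.1 he.2
      rw [not_disjoint_iff] at this
      obtain ⟨x, hx1, hx2⟩ := this
      rw [mem_biUnion]
      exact ⟨x, hx2, mem_filter.2 ⟨he.1, he.2, hx1⟩⟩
    have h1 : dg F v ≤ (M.biUnion id).card * (U.card - 2).choose (k - 2) := by
      refine (card_le_card hsub).trans (card_biUnion_le.trans ?_)
      rw [← smul_eq_mul, ← sum_const]
      apply sum_le_sum
      intro x hx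
      exact pair_le hF (fun h => hVv (h ▸ hx)) hv (hVU hx)
    have h2 : (M.biUnion id).card * (U.card - 2).choose (k - 2) ≤
        s * k * (U.card - 2).choose (k - 2) := by
      apply Nat.mul_le_mul_right
      rw [← hMc]
      exact card_V hF hMF
    omega
  have heM : e ∉ M := fun h => hMv e h hve
  refine ⟨insert e M, insert_subset_iff.2 ⟨he, hMF⟩, ?_, by rw [card_insert_of_notMem heM, hMc]⟩
  have hd : ∀ f ∈ M, Disjoint e f := fun f hf =>
    hdis.mono_right (subset_biUnion_of_mem id hf)
  intro f hf f' hf' hne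
  rw [mem_insert] at hf hf'
  rcases hf with rfl | hf <;> rcases hf' with rfl | hf'
  · exact absurd rfl hne
  · exact hd f' hf'
  · exact (hd f hf).symm
  · exact hM f hf f' hf' hne

theorem caseB {k : ℕ} (hk : 2 ≤ k) {U : Finset α} {F M : Finset (Finset α)}
    (hF : ∀ e ∈ F, e ⊆ U ∧ e.card = k) {s : ℕ} (hs : 1 ≤ s) (hMF : M ⊆ F)
    (hMc : M.card ≤ s) (hmeet : ∀ e ∈ F, ¬ Disjoint e (M.biUnion id))
    (hu : 4 * k ^ 3 * (s + 1) ≤ U.card)
    (hdeg : ∀ v ∈ U, (U.card - 1).choose (k - 1) - (U.card - (s + 1)).choose (k - 1) < dg F v)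
    (hall : ∀ v ∈ U, dg F v ≤ s * k * (U.card - 2).choose (k - 2)) : False := by
  obtain ⟨m, rfl⟩ : ∃ m, k = m + 2 := ⟨k - 2, by omega⟩
  have hVU : M.biUnion id ⊆ U := by
    intro x hx
    rw [mem_biUnion] at hx
    obtain ⟨e, he, h⟩ := hx
    exact (hF e (hMF he)).1 h
  set Q := (U.card - 2).choose m with hQ
  have e1 : (U.card - 2).choose (m + 2 - 2) = Q := rfl
  have e2 : m + 2 - 1 = m + 1 := rfl
  rw [e1] at hall
  rw [e2] at hdeg
  have hF1 : F.card ≤ (s * (m + 2)) * (s * (m + 2) * Q) := by
    have hsub : F ⊆ (M.biUnion id).biUnion (fun x => F.filter (fun e => x ∈ e)) := by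
      intro e he
      have := hmeet e he
      rw [not_disjoint_iff] at this
      obtain ⟨x, hx1, hx2⟩ := this
      rw [mem_biUnion]
      exact ⟨x, hx2, mem_filter.2 ⟨he, hx1⟩⟩
    refine (card_le_card hsub).trans (card_biUnion_le.trans ?_)
    calc ∑ x ∈ M.biUnion id, (F.filter (fun e => x ∈ e)).card
        ≤ ∑ x ∈ M.biUnion id, s * (m + 2) * Q := sum_le_sum fun x hx => hall x (hVU hx)
      _ = (M.biUnion id).card * (s * (m + 2) * Q) := by rw [sum_const, smul_eq_mul]
      _ ≤ (s * (m + 2)) * (s * (m + 2) * Q) := by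
          apply Nat.mul_le_mul_right
          exact (card_V hF hMF).trans (Nat.mul_le_mul_right _ hMc)
  -- size of U
  have hk3 : 8 ≤ (m + 2) ^ 3 := by
    calc 8 = 2 ^ 3 := by norm_num
      _ ≤ (m + 2) ^ 3 := Nat.pow_le_pow_left (by omega) 3
  have hmk : m + 2 ≤ (m + 2) ^ 3 := by
    calc m + 2 = (m + 2) ^ 1 := (pow_one _).symm
      _ ≤ (m + 2) ^ 3 := Nat.pow_le_pow_right (by omega) (by norm_num)
  have hU1 : 4 * ((m + 2) * (s + 1)) ≤ U.card := by
    refine le_trans ?_ hu
    rw [Nat.mul_assoc]
    exact Nat.mul_le_mul_left 4 (Nat.mul_le_mul_right _ hmk)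
  obtain ⟨a, ha⟩ : ∃ a, U.card = a + (s + 1) := by
    have h3 : s + 1 ≤ (m + 2) * (s + 1) := Nat.le_mul_of_pos_left _ (by omega)
    exact ⟨U.card - (s + 1), by omega⟩
  have ha2 : U.card - (s + 1) = a := by omega
  have ha1 : U.card - 1 = a + s := by omega
  have ha3 : U.card - 2 = a + (s - 1) := by omega
  rw [ha2, ha1] at hdeg
  have hD := choose_up a m s
  have hdeg2 : ∀ v ∈ U, s * a.choose m ≤ dg F v := by
    intro v hv
    have := hdeg v hv
    omega
  have hsum : U.card * (s * a.choose m) ≤ (m + 2) * F.card := by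
    rw [← sum_dg hF, ← smul_eq_mul, ← sum_const]
    exact sum_le_sum hdeg2
  have hhalf : Q ≤ 2 * a.choose m := by
    rw [hQ, ha3]
    apply choose_half
    · have : 2 * (s - 1) * m ≤ 2 * ((m + 2) * (s + 1)) := by
        rw [Nat.mul_assoc]
        apply Nat.mul_le_mul_left
        rw [Nat.mul_comm]
        exact Nat.mul_le_mul (by omega) (by omega)
      have h2 : m + 2 ≤ (m + 2) * (s + 1) := Nat.le_mul_of_pos_right _ (by omega)
      have h3 : s + 1 ≤ (m + 2) * (s + 1) := Nat.le_mul_of_pos_left _ (by omega)
      omega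
    · have h2 : m + 2 ≤ (m + 2) * (s + 1) := Nat.le_mul_of_pos_right _ (by omega)
      have h3 : s + 1 ≤ (m + 2) * (s + 1) := Nat.le_mul_of_pos_left _ (by omega)
      omega
  have hapos : 0 < a.choose m := by
    apply Nat.choose_pos
    have h2 : m + 2 ≤ (m + 2) * (s + 1) := Nat.le_mul_of_pos_right _ (by omega)
    have h3 : s + 1 ≤ (m + 2) * (s + 1) := Nat.le_mul_of_pos_left _ (by omega)
    omega
  -- contradiction
  have h5 : 4 * (m + 2) ^ 3 * (s + 1) * (s * a.choose m) ≤
      (m + 2) ^ 3 * (s * s) * (2 * a.choose m) := by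
    calc 4 * (m + 2) ^ 3 * (s + 1) * (s * a.choose m) ≤ U.card * (s * a.choose m) :=
          Nat.mul_le_mul_right _ hu
      _ ≤ (m + 2) * F.card := hsum
      _ ≤ (m + 2) * ((s * (m + 2)) * (s * (m + 2) * Q)) := Nat.mul_le_mul_left _ hF1
      _ = (m + 2) ^ 3 * (s * s) * Q := by ring
      _ ≤ (m + 2) ^ 3 * (s * s) * (2 * a.choose m) := Nat.mul_le_mul_left _ hhalf
  have h6 : (m + 2) ^ 3 * (s * s) * (2 * a.choose m) < 4 * (m + 2) ^ 3 * (s + 1) *
      (s * a.choose m) := by
    have h7 : 0 < (m + 2) ^ 3 * (s * a.choose m) := by positivity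
    calc (m + 2) ^ 3 * (s * s) * (2 * a.choose m)
        = (m + 2) ^ 3 * (s * a.choose m) * (2 * s) := by ring
      _ < (m + 2) ^ 3 * (s * a.choose m) * (4 * (s + 1)) :=
          Nat.mul_lt_mul_of_pos_left (by omega) h7
      _ = _ := by ring
  omega

theorem bdd : S_BDD := by
  intro k hk α _ U F t
  classical
  induction t generalizing U F with
  | zero => intro _ h; omega
  | succ s ih =>
    intro hF ht hu hdeg
    have hk3 : 8 ≤ k ^ 3 := by
      calc 8 = 2 ^ 3 := by norm_num
        _ ≤ k ^ 3 := Nat.pow_le_pow_left (by omega) 3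
    have hUc : 32 * (s + 1) ≤ U.card := by
      refine le_trans ?_ hu
      exact Nat.mul_le_mul_right _ (by omega)
    rcases Nat.eq_zero_or_pos s with rfl | hs
    · have hne : U.Nonempty := card_pos.1 (by omega)
      obtain ⟨v, hv⟩ := hne
      have h1 := hdeg v hv
      have h2 : 0 < dg F v := by omega
      obtain ⟨e, he⟩ := card_pos.1 h2
      rw [mem_filter] at he
      refine ⟨{e}, singleton_subset_iff.2 he.1, ?_, card_singleton e⟩
      intro f hf f' hf' hne
      rw [mem_singleton] at hf hf'
      exact absurd (hf.trans hf'.symm) hne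
    · by_cases hA : ∃ v ∈ U, s * k * (U.card - 2).choose (k - 2) < dg F v
      · obtain ⟨v, hv, hdv⟩ := hA
        have hF' : ∀ e ∈ F.filter (fun e => v ∉ e), e ⊆ U.erase v ∧ e.card = k := by
          intro e he
          rw [mem_filter] at he
          exact ⟨fun x hx => mem_erase.2 ⟨fun h => he.2 (h ▸ hx), (hF e he.1).1 hx⟩,
            (hF e he.1).2⟩
        have hUe : (U.erase v).card = U.card - 1 := card_erase_of_mem hv
        obtain ⟨M, hM1, hM2, hM3⟩ := ih (U.erase v) (F.filter (fun e => v ∉ e)) hF' (by omega)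
          (by
            rw [hUe]
            have : 4 * k ^ 3 * (s + 1) = 4 * k ^ 3 * s + 4 * k ^ 3 := by ring
            omega)
          (by
            intro w hw
            rw [mem_erase] at hw
            have h1 := hdeg w hw.2
            have h2 : dg F w ≤ dg (F.filter (fun e => v ∉ e)) w +
                (F.filter (fun e => v ∈ e ∧ w ∈ e)).card := by
              unfold dg
              rw [← card_union_of_disjoint]
              · apply card_le_card
                intro e he
                rw [mem_filter] at he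
                rw [mem_union, mem_filter, mem_filter, mem_filter]
                by_cases hve : v ∈ e
                · exact Or.inr ⟨he.1, hve, he.2⟩
                · exact Or.inl ⟨⟨he.1, hve⟩, he.2⟩
              · rw [disjoint_left]
                intro e he he'
                rw [mem_filter, mem_filter] at he
                rw [mem_filter] at he'
                exact he.1.2 he'.2.1
            have h3 := pair_le hF (Ne.symm hw.1) hv hw.2
            rw [hUe]
            have h4 : U.card - 1 - 1 = U.card - 2 := by omega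
            have h5 : U.card - 1 - s = U.card - (s + 1) := by omega
            rw [h4, h5]
            obtain ⟨m, rfl⟩ : ∃ m, k = m + 2 := ⟨k - 2, by omega⟩
            have e2 : m + 2 - 1 = m + 1 := rfl
            have e1 : m + 2 - 2 = m := rfl
            rw [e2] at h1 ⊢
            rw [e1] at h3
            have h6 : (U.card - 1).choose (m + 1) = (U.card - 2).choose m +
                (U.card - 2).choose (m + 1) := by
              obtain ⟨c, hc⟩ : ∃ c, U.card = c + 2 := ⟨U.card - 2, by omega⟩
              rw [hc]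
              exact Nat.choose_succ_succ _ _
            have h7 : (U.card - (s + 1)).choose (m + 1) ≤ (U.card - 2).choose (m + 1) :=
              Nat.choose_le_choose _ (by omega)
            omega)
        exact caseA hk hF hv (hM1.trans (filter_subset _ _)) hM2 hM3
          (fun e he => (mem_filter.1 (hM1 he)).2) hdv
      · push Not at hA
        -- a maximum matching
        obtain ⟨M, hM, hmax⟩ := Finset.exists_max_image
          (F.powerset.filter (fun M => Mtch M)) card
          ⟨∅, mem_filter.2 ⟨mem_powerset.2 (empty_subset _), fun e he => by simp at he⟩⟩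
        rw [mem_filter, mem_powerset] at hM
        by_cases hc : s + 1 ≤ M.card
        · obtain ⟨M', hM', hM'c⟩ := exists_subset_card_eq hc
          exact ⟨M', hM'.trans hM.1, mtch_sub hM' hM.2, hM'c⟩
        · exfalso
          refine caseB hk hF (by omega) hM.1 (by omega) ?_ hu hdeg hA
          intro e he hdis
          have hd : ∀ f ∈ M, Disjoint e f := fun f hf =>
            hdis.mono_right (subset_biUnion_of_mem id hf)
          have heM : e ∉ M := by
            intro h
            have h1 := hd e h
            rw [disjoint_self] at h1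
            have h2 := (hF e he).2
            rw [h1] at h2
            simp at h2
            omega
          have h1 := hmax (insert e M) (mem_filter.2 ⟨mem_powerset.2
            (insert_subset_iff.2 ⟨he, hM.1⟩), by
              intro f hf f' hf' hne
              rw [mem_insert] at hf hf'
              rcases hf with rfl | hf <;> rcases hf' with rfl | hf'
              · exact absurd rfl hne
              · exact hd f' hf'
              · exact (hd f hf).symm
              · exact hM.2 f hf f' hf' hne⟩)
          rw [card_insert_of_notMem heM] at h1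
          omega

end Pool.Agent.W63.SAM.BDD
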